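import Pool.Agent.Helper116_EM.NamesFree

/-!
# Elimination with a general family of polynomials (helper927)
-/

set_option autoImplicit false
set_option linter.unusedSectionVars false

open Finset

namespace Pool.Agent.Helper927_jm

open Pool.Agent.Helper116_EM
open Pool.Agent.R356 (IsLen len len_C le_len)

/-- removing an integral root of absolute value at most one -/
lemma strip (a : ℤ) (ha : |a| ≤ 1) (D : ℕ) : ∀ (n : ℕ), n ≤ D → ∀ (P : Polynomial ℤ), P ≠ 0 → P.natDegree ≤ n →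
    ∀ H : ℝ, 0 ≤ H → (∀ i, |((P.coeff i : ℤ) : ℝ)| ≤ H) →
    ∃ (k : ℕ) (P1 : Polynomial ℤ), k ≤ n ∧ P = (Polynomial.X - Polynomial.C a) ^ k * P1 ∧ P1.eval a ≠ 0 ∧
      P1.natDegree ≤ n ∧ ∀ i, |((P1.coeff i : ℤ) : ℝ)| ≤ ((D : ℝ) + 1) ^ n * H := by
  intro n
  induction n with
  | zero =>
    intro _ P hP hPd H hH hPH
    refine ⟨0, P, le_rfl, by simp, ?_, hPd, fun i => by simpa using hPH i⟩
    have h1 : P = Polynomial.C (P.coeff 0) := Polynomial.eq_C_of_natDegree_eq_zero (by omega)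
    intro h0
    rw [h1, Polynomial.eval_C] at h0
    rw [h0, Polynomial.C_0] at h1
    exact hP h1
  | succ n ih =>
    intro hn P hP hPd H hH hPH
    have hD1 : (1 : ℝ) ≤ (D : ℝ) + 1 := by linarith [show (0 : ℝ) ≤ D by positivity]
    by_cases h0 : P.eval a = 0
    · set P' := P /ₘ (Polynomial.X - Polynomial.C a) with hP'
      have h1 : (Polynomial.X - Polynomial.C a) * P' = P := Polynomial.mul_divByMonic_eq_iff_isRoot.2 h0
      have hP'0 : P' ≠ 0 := by
        intro h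
        rw [h, mul_zero] at h1
        exact hP h1.symm
      have hd : P'.natDegree ≤ n := by
        have h2 : P'.natDegree = P.natDegree - (Polynomial.X - Polynomial.C a).natDegree :=
          Polynomial.natDegree_divByMonic P (Polynomial.monic_X_sub_C a)
        rw [Polynomial.natDegree_X_sub_C] at h2
        omega
      have hc : ∀ i, |((P'.coeff i : ℤ) : ℝ)| ≤ ((D : ℝ) + 1) * H := by
        intro i
        rw [hP', Polynomial.coeff_divByMonic_X_sub_C]
        push_cast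
        refine (Finset.abs_sum_le_sum_abs _ _).trans ?_
        have hterm : ∀ j ∈ Finset.Icc (i + 1) P.natDegree,
            |((a : ℝ)) ^ (j - (i + 1)) * ((P.coeff j : ℤ) : ℝ)| ≤ H := by
          intro j _
          rw [abs_mul, abs_pow]
          have h3 : |(a : ℝ)| ≤ 1 := by exact_mod_cast ha
          have h4 : |(a : ℝ)| ^ (j - (i + 1)) ≤ 1 := pow_le_one₀ (abs_nonneg _) h3
          calc |(a : ℝ)| ^ (j - (i + 1)) * |((P.coeff j : ℤ) : ℝ)| ≤ 1 * H :=
                mul_le_mul h4 (hPH j) (abs_nonneg _) zero_le_one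
            _ = H := one_mul H
        refine (Finset.sum_le_card_nsmul _ _ H hterm).trans ?_
        rw [nsmul_eq_mul]
        refine mul_le_mul_of_nonneg_right ?_ hH
        have h5 : (Finset.Icc (i + 1) P.natDegree).card ≤ D := by
          rw [Nat.card_Icc]; omega
        have h6 : (((Finset.Icc (i + 1) P.natDegree).card : ℕ) : ℝ) ≤ (D : ℝ) := by exact_mod_cast h5
        linarith
      obtain ⟨k, P1, hk, hfac, hev, hdeg, hco⟩ := ih (by omega) P' hP'0 hd (((D : ℝ) + 1) * H) (by positivity) hc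
      refine ⟨k + 1, P1, by omega, ?_, hev, by omega, fun i => (hco i).trans (le_of_eq ?_)⟩
      · rw [← h1, hfac]; ring
      · rw [pow_succ]; ring
    · refine ⟨0, P, by omega, by simp, h0, hPd, fun i => (hPH i).trans ?_⟩
      exact le_mul_of_one_le_left hH (one_le_pow₀ hD1)

section

variable {ι : Type} [Fintype ι]

lemma pow_pdF (u : Polynomial (MvPolynomial ι ℤ)) (hu : u ∈ pdF ι 2) (i : ℕ) : u ^ i ∈ pdF ι (i * 2) := by
  induction i with
  | zero =>
    rw [pow_zero, Nat.zero_mul]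
    exact pdF_one ι
  | succ i ih =>
    rw [pow_succ, Nat.succ_mul]
    exact pdF_mul ι _ _ _ _ ih hu

lemma pow_len (u : Polynomial (MvPolynomial ι ℤ)) (hu : len ml u ≤ 2) (i : ℕ) : len ml (u ^ i) ≤ 2 ^ i := by
  induction i with
  | zero =>
    rw [pow_zero, pow_zero]
    exact (isLen_ply (ι := ι)).one
  | succ i ih =>
    rw [pow_succ, pow_succ]
    exact (isLen_ply.mul _ _).trans (mul_le_mul ih hu (isLen_ply.nonneg _) (by positivity))

lemma sideP (u : Polynomial (MvPolynomial ι ℤ)) (hu : u ∈ pdF ι 2) (hul : len ml u ≤ 2) (D : ℕ) (P : Polynomial ℤ)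
    (hP : P.natDegree ≤ D) (H : ℝ) (hH : 0 ≤ H) (hPH : ∀ i, |((P.coeff i : ℤ) : ℝ)| ≤ H) :
    Polynomial.aeval u P ∈ pdF ι (D * 2) ∧
      ∀ i, ml ((Polynomial.aeval u P).coeff i) ≤ (((D : ℝ) + 1) * 2 ^ D) * H := by
  rw [Polynomial.aeval_eq_sum_range]
  constructor
  · refine sum_mem fun i hi => ?_
    have hi' : i ≤ D := by
      have := Finset.mem_range.1 hi
      omega
    exact zsmul_mem (pdF_mono ι _ _ (Nat.mul_le_mul_right 2 hi') (pow_pdF u hu i)) _
  · intro j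
    refine (le_len isLen_ml _ j).trans ?_
    refine (isLen_ply.sum _ _).trans ?_
    have hterm : ∀ i ∈ Finset.range (P.natDegree + 1), len ml (P.coeff i • u ^ i) ≤ H * 2 ^ D := by
      intro i hi
      have hi' : i ≤ D := by
        have := Finset.mem_range.1 hi
        omega
      rw [zsmul_eq_mul]
      refine (isLen_ply.mul _ _).trans ?_
      refine mul_le_mul ((ply_int _).trans (hPH i)) ?_ (isLen_ply.nonneg _) hH
      exact (pow_len u hul i).trans (pow_le_pow_right₀ one_le_two hi')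
    refine (Finset.sum_le_card_nsmul _ _ _ hterm).trans ?_
    rw [Finset.card_range, nsmul_eq_mul]
    have h1 : (((P.natDegree + 1 : ℕ)) : ℝ) ≤ (D : ℝ) + 1 := by exact_mod_cast (by omega : P.natDegree + 1 ≤ D + 1)
    calc (((P.natDegree + 1 : ℕ)) : ℝ) * (H * 2 ^ D) ≤ ((D : ℝ) + 1) * (H * 2 ^ D) :=
          mul_le_mul_of_nonneg_right h1 (by positivity)
      _ = _ := by ring

lemma sideQ {κ : Type} [Fintype κ] (v : κ → Polynomial (MvPolynomial ι ℤ)) (hv : ∀ j, v j ∈ pdF ι 2)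
    (hvΛ : ∀ j, len ml (v j) ≤ 2) (D : ℕ) (Q : MvPolynomial κ ℤ) (hQ : Q.totalDegree ≤ D) (H : ℝ) (hH : 0 ≤ H)
    (hQH : ∀ s, |((MvPolynomial.coeff s Q : ℤ) : ℝ)| ≤ H) :
    MvPolynomial.aeval v Q ∈ pdF ι (D * 2) ∧
      ∀ i, ml ((MvPolynomial.aeval v Q).coeff i) ≤ (((D : ℝ) + 1) ^ (Fintype.card κ) * 2 ^ D) * H := by
  refine ⟨?_, fun i => ?_⟩
  · exact subst_filt (pdF ι) (pdF_one ι) (pdF_mul ι) (pdF_mono ι) v 2 hv D Q hQ
  · refine (le_len isLen_ml _ i).trans ?_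
    refine (subst_len isLen_ply ply_int v 2 one_le_two hvΛ D Q hQ H hH hQH).trans (le_of_eq ?_)
    ring

lemma evalP (β : ι → ℝ) (u : Polynomial (MvPolynomial ι ℤ)) (P : Polynomial ℤ) (α : ℂ) :
    ((Polynomial.aeval u P).map (evC β)).eval α = Polynomial.aeval ((u.map (evC β)).eval α) P := by
  have h1 := Polynomial.aeval_algHom_apply
    (((Polynomial.evalRingHom α).comp (Polynomial.mapRingHom (evC β))).toIntAlgHom) u P
  exact h1.symm

/-- **Elimination**, one number against several -/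
theorem elim {κ : Type} [Fintype κ] {β : ι → ℝ} (hβ : MeasI β) (y : ℝ)
    (u : Polynomial (MvPolynomial ι ℤ)) (v : κ → Polynomial (MvPolynomial ι ℤ))
    (hu1 : u ∈ pdF ι 2) (hu2 : len ml u ≤ 2) (hv1 : ∀ j, v j ∈ pdF ι 2) (hv2 : ∀ j, len ml (v j) ≤ 2)
    (r : ℝ) (hr : (u.map (evC β)).eval (y : ℂ) = (r : ℂ)) (w : κ → ℝ)
    (hw : ∀ j, ((v j).map (evC β)).eval (y : ℂ) = (w j : ℂ))
    (a : ℤ) (ha : |a| ≤ 1) (hra : r ≠ a)
    (hut : ∀ P : Polynomial ℤ, P ≠ 0 → Polynomial.aeval u P ≠ 0)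
    (hcop : ∀ α : ℂ, IsAlgebraic ℚ ((u.map (evC β)).eval α) → (u.map (evC β)).eval α ≠ (a : ℂ) →
      AlgebraicIndependent ℚ (fun j => ((v j).map (evC β)).eval α)) (D : ℕ) :
    ∃ (k : ℕ) (c : ℝ), 0 < c ∧ ∀ (P : Polynomial ℤ) (Q : MvPolynomial κ ℤ), P ≠ 0 → Q ≠ 0 →
      P.natDegree ≤ D → Q.totalDegree ≤ D → ∀ H : ℝ, 1 ≤ H →
      (∀ i, |((P.coeff i : ℤ) : ℝ)| ≤ H) → (∀ s, |((MvPolynomial.coeff s Q : ℤ) : ℝ)| ≤ H) →
      c ≤ H ^ k * max |Polynomial.aeval r P| |MvPolynomial.aeval w Q| := by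
  classical
  obtain ⟨k, c, hc, hm⟩ := joint0 hβ y (D * 2)
  obtain ⟨K1, hK1⟩ : ∃ K1 : ℝ, K1 = (((D : ℝ) + 1) * 2 ^ D) * ((D : ℝ) + 1) ^ D := ⟨_, rfl⟩
  obtain ⟨K2, hK2⟩ : ∃ K2 : ℝ, K2 = ((D : ℝ) + 1) ^ (Fintype.card κ) * 2 ^ D := ⟨_, rfl⟩
  obtain ⟨K, hK⟩ : ∃ K : ℝ, K = 1 + K1 + K2 := ⟨_, rfl⟩
  have hK10 : 0 ≤ K1 := by rw [hK1]; positivity
  have hK20 : 0 ≤ K2 := by rw [hK2]; positivity
  have hKone : 1 ≤ K := by rw [hK]; linarith
  obtain ⟨δ, hδ⟩ : ∃ δ : ℝ, δ = min 1 |r - a| := ⟨_, rfl⟩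
  have hδ0 : 0 < δ := by
    rw [hδ]
    exact lt_min one_pos (abs_pos.2 (sub_ne_zero.2 hra))
  have hδ1 : δ ≤ 1 := by rw [hδ]; exact min_le_left _ _
  have hδr : δ ≤ |r - a| := by rw [hδ]; exact min_le_right _ _
  refine ⟨k, c / K ^ k * δ ^ D, by positivity, ?_⟩
  intro P Q hP hQ hPD hQD H hH hPH hQH
  have hH0 : 0 ≤ H := by linarith
  obtain ⟨j, P1, hj, hfac, hev, hdeg, hco⟩ := strip a ha D D le_rfl P hP hPD H hH0 hPH
  have hP1 : P1 ≠ 0 := by
    intro h
    rw [h, mul_zero] at hfac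
    exact hP hfac
  have hH1 : 0 ≤ ((D : ℝ) + 1) ^ D * H := by positivity
  obtain ⟨hp1, hp2⟩ := sideP u hu1 hu2 D P1 hdeg _ hH1 hco
  obtain ⟨hq1, hq2⟩ := sideQ v hv1 hv2 D Q hQD H hH0 hQH
  have hKH : 1 ≤ K * H := one_le_mul_of_one_le_of_one_le hKone hH
  have key := hm (Polynomial.aeval u P1) (MvPolynomial.aeval v Q) (hut P1 hP1) hp1 hq1 (K * H) hKH
    (fun i => (hp2 i).trans (by
      rw [← mul_assoc, ← hK1]
      exact mul_le_mul_of_nonneg_right (by rw [hK]; linarith) hH0))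
    (fun i => (hq2 i).trans (by
      rw [← hK2]
      exact mul_le_mul_of_nonneg_right (by rw [hK]; linarith) hH0))
    (fun α hα => by
      rw [evalP] at hα
      rw [eval_side]
      have halg : IsAlgebraic ℤ ((u.map (evC β)).eval α) := ⟨P1, hP1, hα⟩
      have halgQ : IsAlgebraic ℚ ((u.map (evC β)).eval α) := (IsFractionRing.isAlgebraic_iff ℤ ℚ ℂ).1 halg
      refine aeval_int_ne (hcop α halgQ ?_) Q hQ
      intro hαa
      rw [hαa] at hα
      apply hev
      have h3 : Polynomial.aeval ((a : ℤ) : ℂ) P1 = ((P1.eval a : ℤ) : ℂ) := by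
        have := Polynomial.aeval_algebraMap_apply_eq_algebraMap_eval (A := ℂ) a P1
        simpa using this
      rw [h3] at hα
      exact_mod_cast hα)
  have e1 : ‖((Polynomial.aeval u P1).map (evC β)).eval (y : ℂ)‖ = |Polynomial.aeval r P1| := by
    rw [evalP, hr]
    have h4 : Polynomial.aeval (r : ℂ) P1 = ((Polynomial.aeval r P1 : ℝ) : ℂ) :=
      Polynomial.aeval_algHom_apply (Complex.ofRealHom.toIntAlgHom) r P1
    rw [h4, Complex.norm_real, Real.norm_eq_abs]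
  have e2 : ‖((MvPolynomial.aeval v Q).map (evC β)).eval (y : ℂ)‖ = |MvPolynomial.aeval w Q| := by
    rw [eval_side, ← norm_aeval_ofReal]
    congr 2
    congr 1
    funext i
    exact hw i
  rw [e1, e2] at key
  -- back to `P`
  have h5 : Polynomial.aeval r P = (r - a) ^ j * Polynomial.aeval r P1 := by
    conv_lhs => rw [hfac]
    simp
  have h6 : δ ^ D * |Polynomial.aeval r P1| ≤ |Polynomial.aeval r P| := by
    rw [h5, abs_mul, abs_pow]
    refine mul_le_mul_of_nonneg_right ?_ (abs_nonneg _)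
    calc δ ^ D ≤ δ ^ j := pow_le_pow_of_le_one hδ0.le hδ1 hj
      _ ≤ |r - a| ^ j := pow_le_pow_left₀ hδ0.le hδr j
  have h7 : δ ^ D * |MvPolynomial.aeval w Q| ≤ |MvPolynomial.aeval w Q| :=
    mul_le_of_le_one_left (abs_nonneg _) (pow_le_one₀ hδ0.le hδ1)
  have h8 : δ ^ D * max |Polynomial.aeval r P1| |MvPolynomial.aeval w Q| ≤
      max |Polynomial.aeval r P| |MvPolynomial.aeval w Q| := by
    rcases le_total |Polynomial.aeval r P1| |MvPolynomial.aeval w Q| with h | h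
    · rw [max_eq_right h]
      exact h7.trans (le_max_right _ _)
    · rw [max_eq_left h]
      exact h6.trans (le_max_left _ _)
  have hKk : 0 < K ^ k := by positivity
  have h9 : c / K ^ k ≤ H ^ k * max |Polynomial.aeval r P1| |MvPolynomial.aeval w Q| := by
    rw [div_le_iff₀ hKk]
    calc c ≤ (K * H) ^ k * _ := key
      _ = _ := by rw [mul_pow]; ring
  calc c / K ^ k * δ ^ D ≤ (H ^ k * max |Polynomial.aeval r P1| |MvPolynomial.aeval w Q|) * δ ^ D :=
        mul_le_mul_of_nonneg_right h9 (by positivity)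
    _ = H ^ k * (δ ^ D * max |Polynomial.aeval r P1| |MvPolynomial.aeval w Q|) := by ring
    _ ≤ _ := mul_le_mul_of_nonneg_left h8 (by positivity)

end

end Pool.Agent.Helper927_jm
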