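import Pool.Agent.Helper116_EM.PiE
import Pool.Agent.Helper927_jm.Elim

/-!
# The family `t + e`, `t - e`, `t e`, `t / e`, `t - G(x)` (helper927)
-/

set_option autoImplicit false
set_option linter.unusedSectionVars false

open Finset

namespace Pool.Agent.Helper927_jm

open Pool.Agent.Helper116_EM
open Pool.Agent.R356 (IsLen len len_C le_len)
open Pool.Agent.R352.T (EA)
open Pool.Agent.R352.E (clF subset_clF indep_of_span of_pow rat_mem)

/-- four names -/
inductive Four : Type
  | plus : Four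
  | minus : Four
  | prod : Four
  | quot : Four
  deriving DecidableEq

/-- the numbers in terms of `e` and `α = t / e` -/
noncomputable def c4 (e α : ℂ) : Four → ℂ
  | Four.plus => e * (α + 1)
  | Four.minus => e * (α - 1)
  | Four.prod => α * e ^ 2
  | Four.quot => α

/-- the exceptional value -/
def exc : Four → Four → ℤ
  | Four.quot, Four.plus => -1
  | Four.quot, Four.minus => 1
  | _, _ => 0

lemma abs_exc (s s' : Four) : |exc s s'| ≤ 1 := by
  rcases s <;> rcases s' <;> simp [exc]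

lemma two_mem (F : Subfield ℂ) (hsq : ∀ z : ℂ, z ^ 2 ∈ F → z ∈ F) (e α : ℂ) (s s' : Four) (hne : s ≠ s')
    (h1 : c4 e α s ∈ F) (h2 : c4 e α s' ∈ F) (hex : ¬ (s = Four.quot ∧ c4 e α s' = 0))
    (hex' : ¬ (s' = Four.quot ∧ c4 e α s = 0)) : e ∈ F ∧ e * α ∈ F := by
  have two : (2 : ℂ) ∈ F := by exact_mod_cast natCast_mem F 2
  have four : (4 : ℂ) ∈ F := by exact_mod_cast natCast_mem F 4
  have half : ∀ z : ℂ, 2 * z ∈ F → z ∈ F := by
    intro z hz
    have := F.div_mem hz two
    rwa [mul_div_cancel_left₀ _ (two_ne_zero)] at this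
  -- the sum and the difference
  have base : ∀ p q : ℂ, p + q ∈ F → p - q ∈ F → p ∈ F ∧ q ∈ F := by
    intro p q hp hq
    refine ⟨half p ?_, half q ?_⟩
    · have := F.add_mem hp hq
      have h : p + q + (p - q) = 2 * p := by ring
      rwa [h] at this
    · have := F.sub_mem hp hq
      have h : p + q - (p - q) = 2 * q := by ring
      rwa [h] at this
  have pm : e * (α + 1) ∈ F → e * (α - 1) ∈ F → e ∈ F ∧ e * α ∈ F := by
    intro a b
    have h := base (e * α) e (by have h' : e * α + e = e * (α + 1) := by ring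
                                 rw [h']; exact a) (by have h' : e * α - e = e * (α - 1) := by ring
                                                       rw [h']; exact b)
    exact ⟨h.2, h.1⟩
  have pp : e * (α + 1) ∈ F → α * e ^ 2 ∈ F → e ∈ F ∧ e * α ∈ F := by
    intro a b
    refine pm a (hsq _ ?_)
    have h : (e * (α - 1)) ^ 2 = (e * (α + 1)) ^ 2 - 4 * (α * e ^ 2) := by ring
    rw [h]
    exact F.sub_mem (F.pow_mem a 2) (F.mul_mem four b)
  have mp : e * (α - 1) ∈ F → α * e ^ 2 ∈ F → e ∈ F ∧ e * α ∈ F := by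
    intro a b
    refine pm (hsq _ ?_) a
    have h : (e * (α + 1)) ^ 2 = (e * (α - 1)) ^ 2 + 4 * (α * e ^ 2) := by ring
    rw [h]
    exact F.add_mem (F.pow_mem a 2) (F.mul_mem four b)
  have pq : e * (α + 1) ∈ F → α ∈ F → e * (α + 1) ≠ 0 → e ∈ F ∧ e * α ∈ F := by
    intro a b h0
    have h3 : α + 1 ≠ 0 := fun h => h0 (by rw [h, mul_zero])
    have h4 : e ∈ F := by
      have := F.div_mem a (F.add_mem b F.one_mem)
      rwa [mul_div_cancel_right₀ _ h3] at this
    exact ⟨h4, F.mul_mem h4 b⟩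
  have mq : e * (α - 1) ∈ F → α ∈ F → e * (α - 1) ≠ 0 → e ∈ F ∧ e * α ∈ F := by
    intro a b h0
    have h3 : α - 1 ≠ 0 := fun h => h0 (by rw [h, mul_zero])
    have h4 : e ∈ F := by
      have := F.div_mem a (F.sub_mem b F.one_mem)
      rwa [mul_div_cancel_right₀ _ h3] at this
    exact ⟨h4, F.mul_mem h4 b⟩
  have rq : α * e ^ 2 ∈ F → α ∈ F → α * e ^ 2 ≠ 0 → e ∈ F ∧ e * α ∈ F := by
    intro a b h0
    have h3 : α ≠ 0 := fun h => h0 (by rw [h, zero_mul])
    have h4 : e ^ 2 ∈ F := by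
      have := F.div_mem a b
      rwa [mul_div_cancel_left₀ _ h3] at this
    have h5 := hsq e h4
    exact ⟨h5, F.mul_mem h5 b⟩
  rcases s <;> rcases s'
  · exact absurd rfl hne
  · exact pm h1 h2
  · exact pp h1 h2
  · exact pq h1 h2 (fun h => hex' ⟨rfl, h⟩)
  · exact pm h2 h1
  · exact absurd rfl hne
  · exact mp h1 h2
  · exact mq h1 h2 (fun h => hex' ⟨rfl, h⟩)
  · exact pp h2 h1
  · exact mp h2 h1
  · exact absurd rfl hne
  · exact rq h1 h2 (fun h => hex' ⟨rfl, h⟩)
  · exact pq h2 h1 (fun h => hex ⟨rfl, h⟩)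
  · exact mq h2 h1 (fun h => hex ⟨rfl, h⟩)
  · exact rq h2 h1 (fun h => hex ⟨rfl, h⟩)
  · exact absurd rfl hne

/-- the whole family at `α` -/
noncomputable def V {m : ℕ} (s s' : Four) (e : ℂ) (θ : Fin m → ℂ) (α : ℂ) : Fin (m + 2) → ℂ :=
  Fin.cons (c4 e α s) (Fin.cons (c4 e α s') (fun j => e * α - θ j))

/-- the exceptional value of the name with the index `i` -/
def excI {m : ℕ} (s s' : Four) (b : ℤ) : Fin (m + 2) → ℤ :=
  Fin.cons (exc s s') (Fin.cons (exc s' s) (fun _ => b))

lemma abs_excI {m : ℕ} (s s' : Four) (b : ℤ) (hb : |b| ≤ 1) (i : Fin (m + 2)) : |excI (m := m) s s' b i| ≤ 1 := by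
  refine Fin.cases ?_ (fun i => Fin.cases ?_ (fun j => ?_) i) i
  · exact abs_exc s s'
  · exact abs_exc s' s
  · exact hb

/-- two independent numbers are not in the closure of one of them -/
lemma not_both {e θ : ℂ} (h : AlgebraicIndependent ℚ ![e, θ]) : θ ∉ clC {e} := by
  intro h1
  have h2 := cardC_le h (T := {e}) (fun i => by
    fin_cases i
    · exact subset_clC {e} rfl
    · exact h1)
  have h3 : MtC.eRk {e} ≤ 1 := (Matroid.eRk_le_encard _ _).trans (by rw [Set.encard_singleton])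
  have h4 : ((Fintype.card (Fin 2) : ℕ) : ℕ∞) ≤ 1 := h2.trans h3
  rw [Fintype.card_fin] at h4
  exact absurd h4 (by decide)

lemma alg_mem {S : Set ℂ} {z : ℂ} (h : IsAlgebraic ℚ z) : z ∈ clC S :=
  mem_clC_iff.2 (h.extendScalars (FaithfulSMul.algebraMap_injective ℚ (Algebra.adjoin ℚ S)))

lemma sq_mem {S : Set ℂ} (z : ℂ) (h : z ^ 2 ∈ clC S) : z ∈ clC S :=
  mem_clC_iff.2 ((mem_clC_iff.1 h).of_pow two_pos)

/-- the values of the exceptional pairs -/
lemma exc_case (e α : ℂ) (he : e ≠ 0) (s s' : Four) (hne : s ≠ s') (hs : s = Four.quot) (h : c4 e α s' = 0) :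
    c4 e α s = ((exc s s' : ℤ) : ℂ) ∧ c4 e α s' = ((exc s' s : ℤ) : ℂ) ∧ α = ((exc s s' : ℤ) : ℂ) := by
  subst hs
  rcases s'
  · have h1 : e * (α + 1) = 0 := h
    have h2 : α = -1 := by
      rcases mul_eq_zero.1 h1 with h | h
      · exact absurd h he
      · linear_combination h
    simp [c4, exc, h2]
  · have h1 : e * (α - 1) = 0 := h
    have h2 : α = 1 := by
      rcases mul_eq_zero.1 h1 with h | h
      · exact absurd h he
      · linear_combination h
    simp [c4, exc, h2]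
  · have h1 : α * e ^ 2 = 0 := h
    have h2 : α = 0 := by
      rcases mul_eq_zero.1 h1 with h | h
      · exact h
      · exact absurd (pow_eq_zero_iff two_ne_zero |>.1 h) he
    simp [c4, exc, h2]
  · exact absurd rfl hne

/-- **Independence** -/
theorem indepV {m : ℕ} (s s' : Four) (hne : s ≠ s') (e : ℂ) (θ : Fin m → ℂ)
    (hI : AlgebraicIndependent ℚ (Fin.cons e θ : Fin (m + 1) → ℂ)) (α : ℂ) (i0 : Fin (m + 2))
    (halg : IsAlgebraic ℚ (V s s' e θ α i0)) (b : ℤ)
    (hx : V s s' e θ α i0 ≠ ((excI (m := m) s s' b i0 : ℤ) : ℂ)) :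
    AlgebraicIndependent ℚ (fun j => V s s' e θ α (i0.succAbove j)) := by
  have he : e ≠ 0 := by
    intro h
    have h1 : Transcendental ℚ e := hI.transcendental 0
    rw [h] at h1
    exact h1 isAlgebraic_zero
  -- the tails
  have htail : ∀ (j : Fin m) (n : ℤ), i0 = j.succ.succ → α = (n : ℂ) → False := by
    intro j n hi hα
    have hp : AlgebraicIndependent ℚ ![e, θ j] := by
      have h1 := hI.comp ![0, j.succ] (by
        intro a b hab
        fin_cases a <;> fin_cases b
        · rfl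
        · exact absurd hab (Fin.succ_ne_zero j).symm
        · exact absurd hab (Fin.succ_ne_zero j)
        · rfl)
      convert h1 using 1
      funext a
      fin_cases a <;> rfl
    apply not_both hp
    have h2 : V s s' e θ α i0 = e * α - θ j := by rw [hi]; rfl
    rw [h2] at halg
    have h3 : e * α - θ j ∈ clC {e} := alg_mem halg
    have h4 : e ∈ clC {e} := subset_clC {e} rfl
    have h5 : α ∈ clC {e} := by rw [hα]; exact intCast_mem (clC {e}) n
    have h6 := (clC {e}).sub_mem ((clC {e}).mul_mem h4 h5) h3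
    rwa [sub_sub_cancel] at h6
  refine indepC_of_span hI (fun i => ?_) le_rfl
  set T : Set ℂ := Set.range (fun j => V s s' e θ α (i0.succAbove j)) with hT
  have hall : ∀ i, V s s' e θ α i ∈ clC T := by
    intro i
    by_cases hi : i = i0
    · rw [hi]; exact alg_mem halg
    · obtain ⟨j, hj⟩ := Fin.exists_succAbove_eq hi
      rw [← hj]
      exact subset_clC T ⟨j, rfl⟩
  have key := two_mem (clC T) (fun z hz => sq_mem z hz) e α s s' hne (hall 0) (hall (Fin.succ 0))
    (by
      rintro ⟨hs, h0⟩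
      obtain ⟨a1, a2, a3⟩ := exc_case e α he s s' hne hs h0
      revert hx htail
      refine Fin.cases ?_ (fun i => Fin.cases ?_ (fun j => ?_) i) i0
      · intro hx _; exact hx a1
      · intro hx _; exact hx a2
      · intro _ h; exact h j _ rfl a3)
    (by
      rintro ⟨hs, h0⟩
      obtain ⟨a1, a2, a3⟩ := exc_case e α he s' s hne.symm hs h0
      revert hx htail
      refine Fin.cases ?_ (fun i => Fin.cases ?_ (fun j => ?_) i) i0
      · intro hx _; exact hx a2
      · intro hx _; exact hx a1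
      · intro _ h; exact h j _ rfl a3)
  refine Fin.cases ?_ (fun j => ?_) i
  · exact key.1
  · have h1 : e * α - θ j ∈ clC T := hall j.succ.succ
    have h2 := (clC T).sub_mem key.2 h1
    rw [sub_sub_cancel] at h2
    exact h2

/-! ## The polynomials -/

/-- the polynomials of the four names -/
noncomputable def p4 (m : ℕ) : Four → Polynomial (MvPolynomial (Fin (m + 1)) ℤ)
  | Four.plus => Polynomial.C (MvPolynomial.X 0) * (Polynomial.X + 1)
  | Four.minus => Polynomial.C (MvPolynomial.X 0) * (Polynomial.X - 1)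
  | Four.prod => Polynomial.C (MvPolynomial.X 0 * MvPolynomial.X 0) * Polynomial.X
  | Four.quot => Polynomial.X

/-- all polynomials -/
noncomputable def U {m : ℕ} (s s' : Four) : Fin (m + 2) → Polynomial (MvPolynomial (Fin (m + 1)) ℤ) :=
  Fin.cons (p4 m s) (Fin.cons (p4 m s') (fun j : Fin m =>
    Polynomial.C (MvPolynomial.X 0) * Polynomial.X - Polynomial.C (MvPolynomial.X j.succ)))

lemma coe_mem_pdF {m : ℕ} (n : ℕ) : (1 : Polynomial (MvPolynomial (Fin (m + 1)) ℤ)) ∈ pdF (Fin (m + 1)) n :=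
  pdF_mono _ 0 n (Nat.zero_le _) (pdF_one _)

lemma CX_mem {m : ℕ} : Polynomial.C (MvPolynomial.X 0) * (Polynomial.X : Polynomial (MvPolynomial (Fin (m + 1)) ℤ)) ∈
    pdF (Fin (m + 1)) 1 := by
  refine ⟨?_, fun j => ?_⟩
  · exact (Polynomial.natDegree_C_mul_le _ _).trans Polynomial.natDegree_X_le
  · rw [Polynomial.coeff_C_mul, Polynomial.coeff_X]
    split_ifs
    · rw [mul_one]
      show (MvPolynomial.X 0 : MvPolynomial (Fin (m + 1)) ℤ).totalDegree ≤ 1
      rw [MvPolynomial.totalDegree_X]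
    · rw [mul_zero]
      exact zero_mem _

lemma p4_mem {m : ℕ} (s : Four) : p4 m s ∈ pdF (Fin (m + 1)) 2 := by
  rcases s
  · exact pdF_mul _ 1 1 _ _ (pdF_C 0) (add_mem pdF_X (coe_mem_pdF 1))
  · exact pdF_mul _ 1 1 _ _ (pdF_C 0) (sub_mem pdF_X (coe_mem_pdF 1))
  · refine ⟨?_, fun j => ?_⟩
    · have h1 : (Polynomial.C (MvPolynomial.X 0 * MvPolynomial.X 0 : MvPolynomial (Fin (m + 1)) ℤ) *
          Polynomial.X).natDegree ≤ 1 := (Polynomial.natDegree_C_mul_le _ _).trans Polynomial.natDegree_X_le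
      exact h1.trans one_le_two
    · show (Polynomial.C (MvPolynomial.X 0 * MvPolynomial.X 0) * Polynomial.X :
        Polynomial (MvPolynomial (Fin (m + 1)) ℤ)).coeff j ∈ tdF (Fin (m + 1)) 2
      rw [Polynomial.coeff_C_mul, Polynomial.coeff_X]
      split_ifs
      · rw [mul_one]
        have h1 : (MvPolynomial.X 0 : MvPolynomial (Fin (m + 1)) ℤ) ∈ tdF (Fin (m + 1)) 1 := by
          show (MvPolynomial.X 0 : MvPolynomial (Fin (m + 1)) ℤ).totalDegree ≤ 1
          rw [MvPolynomial.totalDegree_X]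
        exact tdF_mul _ 1 1 _ _ h1 h1
      · rw [mul_zero]
        exact zero_mem _
  · exact pdF_mono _ 1 2 one_le_two pdF_X

lemma len_two {m : ℕ} {a b : Polynomial (MvPolynomial (Fin (m + 1)) ℤ)} (ha : len ml a ≤ 1) (hb : len ml b ≤ 1) :
    len ml (a + b) ≤ 2 ∧ len ml (a - b) ≤ 2 ∧ len ml (a * b) ≤ 1 := by
  refine ⟨?_, ?_, ?_⟩
  · have := (isLen_ply (ι := Fin (m + 1))).add a b
    linarith
  · rw [sub_eq_add_neg]
    have := (isLen_ply (ι := Fin (m + 1))).add a (-b)
    rw [(isLen_ply (ι := Fin (m + 1))).neg] at this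
    linarith
  · exact ((isLen_ply (ι := Fin (m + 1))).mul a b).trans (mul_le_one₀ ha (isLen_ply.nonneg _) hb)

lemma p4_len {m : ℕ} (s : Four) : len ml (p4 m s) ≤ 2 := by
  have hC := ply_C (ι := Fin (m + 1)) 0
  have hX := ply_X (ι := Fin (m + 1))
  have h1 : len (ml : MvPolynomial (Fin (m + 1)) ℤ → ℝ) 1 ≤ 1 := (isLen_ply (ι := Fin (m + 1))).one
  rcases s
  · refine (isLen_ply.mul _ _).trans ?_
    calc _ ≤ (1 : ℝ) * 2 := mul_le_mul hC (len_two hX h1).1 (isLen_ply.nonneg _) zero_le_one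
      _ = 2 := by norm_num
  · refine (isLen_ply.mul _ _).trans ?_
    calc _ ≤ (1 : ℝ) * 2 := mul_le_mul hC (len_two hX h1).2.1 (isLen_ply.nonneg _) zero_le_one
      _ = 2 := by norm_num
  · have hCC : len (ml : MvPolynomial (Fin (m + 1)) ℤ → ℝ)
        (Polynomial.C (MvPolynomial.X 0 * MvPolynomial.X 0 : MvPolynomial (Fin (m + 1)) ℤ)) ≤ 1 := by
      rw [Polynomial.C_mul]
      exact (len_two hC hC).2.2
    exact ((len_two hCC hX).2.2).trans one_le_two
  · exact hX.trans one_le_two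

lemma U_mem {m : ℕ} (s s' : Four) (i : Fin (m + 2)) : U (m := m) s s' i ∈ pdF (Fin (m + 1)) 2 := by
  refine Fin.cases ?_ (fun i => Fin.cases ?_ (fun j => ?_) i) i
  · exact p4_mem s
  · exact p4_mem s'
  · exact pdF_mono _ 1 2 one_le_two (sub_mem CX_mem (pdF_C j.succ))

lemma U_len {m : ℕ} (s s' : Four) (i : Fin (m + 2)) : len ml (U (m := m) s s' i) ≤ 2 := by
  refine Fin.cases ?_ (fun i => Fin.cases ?_ (fun j => ?_) i) i
  · exact p4_len s
  · exact p4_len s'
  · exact (len_two (len_two (ply_C (ι := Fin (m + 1)) 0) ply_X).2.2 (ply_C j.succ)).2.1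

lemma eval_p4 {m : ℕ} (β : Fin (m + 1) → ℝ) (s : Four) (α : ℂ) :
    ((p4 m s).map (evC β)).eval α = c4 (β 0) α s := by
  rcases s
  · simp [p4, c4, evC_apply]
  · simp [p4, c4, evC_apply]
  · simp only [p4, c4, Polynomial.map_mul, Polynomial.map_C, Polynomial.map_X, Polynomial.eval_mul, Polynomial.eval_C,
      Polynomial.eval_X, evC_apply, map_mul, MvPolynomial.aeval_X, Complex.ofReal_mul]
    ring
  · simp [p4, c4]

lemma eval_U {m : ℕ} (β : Fin (m + 1) → ℝ) (s s' : Four) (α : ℂ) (i : Fin (m + 2)) :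
    ((U (m := m) s s' i).map (evC β)).eval α = V s s' (β 0) (fun j => (β j.succ : ℂ)) α i := by
  refine Fin.cases ?_ (fun i => Fin.cases ?_ (fun j => ?_) i) i
  · exact eval_p4 β s α
  · exact eval_p4 β s' α
  · simp [U, V, evC_apply]

/-- the polynomials are transcendental -/
lemma U_trans {m : ℕ} (s s' : Four) (i : Fin (m + 2)) (P : Polynomial ℤ) (hP : P ≠ 0) :
    Polynomial.aeval (U (m := m) s s' i) P ≠ 0 := by
  -- specialise the first variable to `1` and the others to `0`
  let φ : MvPolynomial (Fin (m + 1)) ℤ →+* ℤ :=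
    (MvPolynomial.aeval (Fin.cons 1 (fun _ => 0) : Fin (m + 1) → ℤ) : MvPolynomial (Fin (m + 1)) ℤ →ₐ[ℤ] ℤ).toRingHom
  intro h0
  have h1 := Polynomial.aeval_algHom_apply ((Polynomial.mapRingHom φ).toIntAlgHom) (U (m := m) s s' i) P
  rw [h0, map_zero] at h1
  have hφ0 : φ (MvPolynomial.X 0) = 1 := by simp [φ]
  have hφs : ∀ j : Fin m, φ (MvPolynomial.X j.succ) = 0 := by intro j; simp [φ]
  have h4 : ∀ s : Four, (Polynomial.mapRingHom φ).toIntAlgHom (p4 m s) = Polynomial.X ∨
      (Polynomial.mapRingHom φ).toIntAlgHom (p4 m s) = Polynomial.X + Polynomial.C 1 ∨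
      (Polynomial.mapRingHom φ).toIntAlgHom (p4 m s) = Polynomial.X + Polynomial.C (-1) := by
    intro s
    rcases s
    · right; left
      show Polynomial.map φ (p4 m Four.plus) = _
      simp [p4, hφ0]
    · right; right
      show Polynomial.map φ (p4 m Four.minus) = _
      simp [p4, hφ0, sub_eq_add_neg]
    · left
      show Polynomial.map φ (p4 m Four.prod) = _
      simp [p4, hφ0]
    · left
      show Polynomial.map φ (p4 m Four.quot) = _
      simp [p4]
  have h5 : ∃ c : ℤ, (Polynomial.mapRingHom φ).toIntAlgHom (U (m := m) s s' i) = Polynomial.X + Polynomial.C c := by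
    have h6 : ∀ s : Four, ∃ c : ℤ, (Polynomial.mapRingHom φ).toIntAlgHom (p4 m s) = Polynomial.X + Polynomial.C c := by
      intro s
      rcases h4 s with h | h | h
      · exact ⟨0, by rw [h]; simp⟩
      · exact ⟨1, h⟩
      · exact ⟨-1, h⟩
    refine Fin.cases ?_ (fun i => Fin.cases ?_ (fun j => ?_) i) i
    · exact h6 s
    · exact h6 s'
    · refine ⟨0, ?_⟩
      show Polynomial.map φ (Polynomial.C (MvPolynomial.X 0) * Polynomial.X - Polynomial.C (MvPolynomial.X j.succ)) = _
      simp [hφ0, hφs]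
  obtain ⟨c, hc⟩ := h5
  rw [hc] at h1
  have h7 : (P.comp (Polynomial.X + Polynomial.C c)) = 0 := by
    rw [← h1, Polynomial.aeval_def, Polynomial.comp]
    congr 1
  have h8 : P = 0 := by
    have h9 := congrArg (fun q : Polynomial ℤ => q.comp (Polynomial.X - Polynomial.C c)) h7
    simp only [Polynomial.comp_assoc] at h9
    simpa using h9
  exact hP h8

/-! ## The measure -/

/-- `e` and the numbers `x (2 - E(x))²` -/
noncomputable def bt {m : ℕ} (x : Fin m → ℚ) : Fin (m + 1) → ℝ :=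
  Fin.cons (Real.exp 1) (fun j => (x j : ℝ) * (2 - EA (1 / 2) 1 (x j : ℝ)) ^ 2)

lemma bt_indep {m : ℕ} (x : Fin m → ℚ) (hx : ∀ j, 0 < x j) (hinj : Function.Injective x) :
    AlgebraicIndependent ℚ (bt x) := by
  let f : Fin (m + 1) → {b : NP // b ≠ Sum.inl true} :=
    Fin.cons ⟨Sum.inl false, by simp⟩ (fun j => ⟨Sum.inr ⟨x j, hx j⟩, by simp⟩)
  have hf : Function.Injective f := by
    intro a b hab
    revert hab
    refine Fin.cases ?_ (fun i => ?_) a
    · refine Fin.cases ?_ (fun j => ?_) b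
      · intro _; rfl
      · intro h
        exact absurd h (by simp [f])
    · refine Fin.cases ?_ (fun j => ?_) b
      · intro h
        exact absurd h (by simp [f])
      · intro h
        simp only [f, Fin.cons_succ, Subtype.mk.injEq, Sum.inr.injEq] at h
        rw [hinj h]
  have hX := basP_indep.comp f hf
  refine indep_of_span hX (fun i => ?_) le_rfl
  set T := Set.range (bt x) with hT
  refine Fin.cases ?_ (fun j => ?_) i
  · exact subset_clF T ⟨0, rfl⟩
  · show EA (1 / 2) 1 (x j : ℝ) ∈ clF T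
    have hx0 : (0 : ℝ) < (x j : ℝ) := by exact_mod_cast hx j
    have h1 : (x j : ℝ) * (2 - EA (1 / 2) 1 (x j : ℝ)) ^ 2 ∈ clF T := subset_clF T ⟨j.succ, rfl⟩
    have h3 := (clF T).div_mem h1 (rat_mem T (x j))
    rw [mul_div_cancel_left₀ _ hx0.ne'] at h3
    have h4 := of_pow two_ne_zero h3
    have h5 : (2 : ℝ) ∈ clF T := by exact_mod_cast rat_mem T 2
    have h6 := (clF T).sub_mem h5 h4
    rw [sub_sub_cancel] at h6
    exact h6

lemma bt_meas {m : ℕ} (x : Fin m → ℚ) (hx : ∀ j, 0 < x j) (hinj : Function.Injective x) : MeasI (bt x) := by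
  classical
  let S : Finset (ℚ × ℚ) := Finset.univ.image fun j => ((1 / 2 : ℚ), x j)
  have hS : ∀ p ∈ S, 0 ≤ p.1 ∧ p.1 < 1 ∧ 0 < p.2 := by
    intro p hp
    obtain ⟨j, _, rfl⟩ := Finset.mem_image.1 hp
    exact ⟨by norm_num, by norm_num, hx j⟩
  set N : ℕ := ∏ j, (x j).den with hN
  have hN0 : N ≠ 0 := Finset.prod_ne_zero_iff.2 fun j _ => (x j).den_ne_zero
  refine meas_gen' 1 S hS N hN0 (bt x) (bt_indep x hx hinj) (fun B g hg heg hexp hE i => ?_)
  refine Fin.cases ?_ (fun j => ?_) i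
  · show Real.exp 1 * (N * g) ∈ B
    have : Real.exp 1 * (N * g) = (N : ℝ) * (Real.exp 1 * g) := by ring
    rw [this]
    exact B.mul_mem (natCast_mem B N) heg
  · show (x j : ℝ) * (2 - EA (1 / 2) 1 (x j : ℝ)) ^ 2 * (N * g) ∈ B
    have h1 : EA (1 / 2) 1 (x j) ∈ B := by
      have := hE ((1 / 2 : ℚ), x j) (Finset.mem_image_of_mem _ (Finset.mem_univ j)) 1 le_rfl le_rfl
      push_cast at this
      exact this
    have hNX : ((N : ℝ) * (x j : ℝ)) ∈ B := by
      obtain ⟨d, hd⟩ := Finset.dvd_prod_of_mem (fun j => (x j).den) (Finset.mem_univ j)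
      have h2 : (N : ℚ) * x j = ((d * (x j).num : ℤ) : ℚ) := by
        have h3 : (N : ℚ) = ((x j).den : ℚ) * d := by
          rw [hN, hd]; push_cast; rfl
        have h4 : x j * (x j).den = (x j).num := Rat.mul_den_eq_num (x j)
        push_cast
        rw [h3, ← h4]
        ring
      have h5 : (N : ℝ) * (x j : ℝ) = ((d * (x j).num : ℤ) : ℝ) := by
        have := congrArg (fun z : ℚ => (z : ℝ)) h2
        push_cast at this ⊢
        exact this
      rw [h5]
      exact intCast_mem B _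
    have h2 : (2 : ℝ) ∈ B := by exact_mod_cast natCast_mem B 2
    have e1 : (x j : ℝ) * (2 - EA (1 / 2) 1 (x j : ℝ)) ^ 2 * (N * g) =
        (N * (x j : ℝ)) * ((2 - EA (1 / 2) 1 (x j : ℝ)) ^ 2 * g) := by ring
    rw [e1]
    exact B.mul_mem hNX (B.mul_mem (B.pow_mem (B.sub_mem h2 h1) 2) hg)

end Pool.Agent.Helper927_jm
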