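import Pool.Agent.Helper116_EM.ZetaAll

/-!
# Tuples of zeta values and of tails (helper927)
-/

set_option autoImplicit false
set_option linter.unusedSectionVars false

open Set

namespace Pool.Agent.Helper927_jm

open Pool.Agent.Helper116_EM
open Pool.Agent.R352.E (Mt clF subset_clF clF_mono clF_le indep_of_span of_pow card_le mem_clF' mem_cl_iff)
open Pool.Agent.R352.Q (AI_Z Zk)

/-- differences of the offsets for several `k` -/
theorem indep_multi (K : Finset ℕ) (hK : ∀ k ∈ K, 2 ≤ k) {n : ℕ} (a : Fin (n + 1) → Option {x : ℚ // 0 < x})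
    (ha : Function.Injective a) :
    AlgebraicIndependent ℚ (fun z : Option (K × Fin n) =>
      z.elim (Real.exp 1) (fun p => off p.1 (a 0) - off p.1 (a p.2.succ))) := by
  classical
  set F : Finset (Option {x : ℚ // 0 < x}) := insert none (Finset.univ.image a) with hF
  have hoF : none ∈ F := Finset.mem_insert_self _ _
  have haF : ∀ j, a j ∈ F := fun j => Finset.mem_insert_of_mem (Finset.mem_image_of_mem _ (Finset.mem_univ _))
  let y : Option (K × (F.erase (a 0))) → ℝ := fun z => z.elim (Real.exp 1) (fun p => off p.1 (a 0) - off p.1 p.2)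
  let x : Option (K × (F.erase none)) → ℝ := fun z => z.elim (Real.exp 1) (fun p => off p.1 p.2)
  have hx : AlgebraicIndependent ℚ x := by
    let f : Option (K × (F.erase none)) → Option {p : ℕ × ℚ // 2 ≤ p.1 ∧ 0 < p.2} := fun z =>
      match z with
      | none => none
      | some (_, ⟨none, h⟩) => absurd rfl (Finset.mem_erase.1 h).1
      | some (k, ⟨some x, _⟩) => some ⟨(k.1, x.1), hK k.1 k.2, x.2⟩
    have hf : Function.Injective f := by
      intro z z' h
      rcases z with _ | ⟨k, ⟨_ | x, hx⟩⟩ <;> rcases z' with _ | ⟨k', ⟨_ | x', hx'⟩⟩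
      · rfl
      · exact absurd rfl (Finset.mem_erase.1 hx').1
      · exact absurd h (by simp [f])
      · exact absurd rfl (Finset.mem_erase.1 hx).1
      · exact absurd rfl (Finset.mem_erase.1 hx).1
      · exact absurd rfl (Finset.mem_erase.1 hx).1
      · exact absurd h (by simp [f])
      · exact absurd rfl (Finset.mem_erase.1 hx').1
      · simp only [f, Option.some.injEq, Subtype.mk.injEq, Prod.mk.injEq] at h
        have h1 : k = k' := Subtype.ext h.1
        have h2 : x = x' := Subtype.ext h.2
        subst h1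
        subst h2
        rfl
    have h2 := AI_Z.comp f hf
    convert h2 using 1
    funext z
    rcases z with _ | ⟨k, ⟨_ | x, hx⟩⟩
    · rfl
    · exact absurd rfl (Finset.mem_erase.1 hx).1
    · rfl
  have hy : AlgebraicIndependent ℚ y := by
    refine indep_of_span hx (fun z => ?_) ?_
    · set T := Set.range y with hT
      cases z with
      | none => exact subset_clF T ⟨none, rfl⟩
      | some p =>
        obtain ⟨k, b⟩ := p
        have hdiff : ∀ b ∈ F, off k (a 0) - off k b ∈ clF T := by
          intro b hb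
          by_cases hba : b = a 0
          · rw [hba, sub_self]; exact (clF T).zero_mem
          · exact subset_clF T ⟨some (k, ⟨b, Finset.mem_erase.2 ⟨hba, hb⟩⟩), rfl⟩
        have h0 : off k (a 0) ∈ clF T := by
          have h1 := hdiff none hoF
          have h2 : off (k : ℕ) none = 0 := rfl
          rwa [h2, sub_zero] at h1
        have h1 := (clF T).sub_mem h0 (hdiff b.1 (Finset.mem_erase.1 b.2).2)
        rw [sub_sub_cancel] at h1
        exact h1
    · rw [Fintype.card_option, Fintype.card_option, Fintype.card_prod, Fintype.card_prod, Fintype.card_coe,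
        Fintype.card_coe, Fintype.card_coe, Finset.card_erase_of_mem (haF 0), Finset.card_erase_of_mem hoF]
  let f : Fin n → (F.erase (a 0)) := fun j => ⟨a j.succ, Finset.mem_erase.2
    ⟨fun h => Fin.succ_ne_zero j (ha h), haF _⟩⟩
  have hf : Function.Injective f := by
    intro i i' h
    simp only [f, Subtype.mk.injEq] at h
    exact Fin.succ_injective _ (ha h)
  have h3 := hy.comp (Option.map (Prod.map id f)) (Option.map_injective (Function.injective_id.prodMap hf))
  convert h3 using 1
  funext z
  cases z <;> rfl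

/-- the number `R_k(x)` -/
noncomputable def Rt (k : ℕ) (x : ℚ) : ℝ := (tailZ k x).re

lemma Rt_eq {k : ℕ} (hk : 2 ≤ k) {x : ℚ} (hx : 0 ≤ x) :
    Rt k x = Pool.Agent.R352.E.zt k - off k (nmZ x) := by
  rw [Rt, ← num_nmZ hk hx, Complex.ofReal_re, num_eq]

/-- `e` and the `R_k(x)` -/
noncomputable def tup (K : Finset ℕ) (x : ℚ) : Option K → ℝ := fun z => z.elim (Real.exp 1) (fun k => Rt k x)

lemma indep_of_rank {κ : Type*} [Fintype κ] {y : κ → ℝ} (h1 : (Fintype.card κ : ℕ∞) ≤ Mt.eRk (range y)) :
    AlgebraicIndependent ℚ y := by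
  have h2 : (range y).encard ≤ Fintype.card κ := by
    rw [← image_univ, ← ENat.card_eq_coe_fintype_card, ← encard_univ]
    exact encard_image_le _ _
  have h3 : (Fintype.card κ : ℕ∞) ≤ (range y).encard := h1.trans (Matroid.eRk_le_encard _ _)
  have hfin : (range y).Finite := finite_range y
  have h4 : Mt.Indep (range y) := by
    refine (Mt.isRkFinite_of_finite hfin).indep_of_encard_le_eRk ?_
    exact h2.trans h1
  have hinj : Function.Injective y := by
    rw [← injOn_univ]
    refine Finite.injOn_of_encard_image_eq finite_univ ?_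
    rw [image_univ]
    refine le_antisymm (h2.trans ?_) ?_
    · rw [encard_univ, ENat.card_eq_coe_fintype_card]
    · rw [encard_univ, ENat.card_eq_coe_fintype_card]; exact h3
  exact (algebraicIndependent_subtype_range hinj).1 h4

lemma exp_indep : Mt.Indep {Real.exp 1} := by
  have h1 : AlgebraicIndependent ℚ (fun _ : Unit => Real.exp 1) :=
    AI_Z.comp (fun _ : Unit => none) (fun _ _ _ => rfl)
  have h2 : Mt.Indep (range fun _ : Unit => Real.exp 1) := h1.to_subtype_range
  have h3 : (range fun _ : Unit => Real.exp 1) = {Real.exp 1} := by ext z; simp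
  rwa [h3] at h2

/-- a basis with `e` of a dependent tuple -/
lemma small_basis (K : Finset ℕ) (x : ℚ) (h : ¬ AlgebraicIndependent ℚ (tup K x)) :
    ∃ B : Finset ℝ, B.card + 1 ≤ K.card ∧ ∀ k ∈ K, Rt k x ∈ clF (insert (Real.exp 1) (B : Set ℝ)) := by
  classical
  have he : ({Real.exp 1} : Set ℝ) ⊆ range (tup K x) := by
    rintro _ rfl
    exact ⟨none, rfl⟩
  obtain ⟨J, hJ, heJ⟩ := exp_indep.subset_isBasis_of_subset he (subset_univ _)
  have hfin : J.Finite := (finite_range (tup K x)).subset hJ.subset
  have hlt : Mt.eRk (range (tup K x)) < (Fintype.card (Option K) : ℕ∞) := by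
    by_contra h0
    exact h (indep_of_rank (not_lt.1 h0))
  rw [← hJ.encard_eq_eRk, Fintype.card_option, Fintype.card_coe, hfin.encard_eq_coe_toFinset_card] at hlt
  have hlt' : hfin.toFinset.card < K.card + 1 := by exact_mod_cast hlt
  have hemem : Real.exp 1 ∈ hfin.toFinset := hfin.mem_toFinset.2 (heJ rfl)
  refine ⟨hfin.toFinset.erase (Real.exp 1), ?_, fun k hk => ?_⟩
  · rw [Finset.card_erase_of_mem hemem]
    have : 0 < hfin.toFinset.card := Finset.card_pos.2 ⟨_, hemem⟩
    omega
  · have h1 : Rt k x ∈ Mt.closure J := by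
      rw [hJ.closure_eq_closure]
      exact Matroid.subset_closure Mt _ (subset_univ _) ⟨some ⟨k, hk⟩, rfl⟩
    have h2 : J ⊆ insert (Real.exp 1) ((hfin.toFinset.erase (Real.exp 1) : Finset ℝ) : Set ℝ) := by
      intro z hz
      by_cases hze : z = Real.exp 1
      · rw [hze]; exact mem_insert _ _
      · refine mem_insert_of_mem _ ?_
        rw [Finset.mem_coe, Finset.mem_erase]
        exact ⟨hze, hfin.mem_toFinset.2 hz⟩
    exact clF_mono h2 h1

/-- **At most `|K|` dependent tuples** -/
theorem few_dependent (K : Finset ℕ) (hK : ∀ k ∈ K, 2 ≤ k) (S : Finset ℚ)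
    (hS : ∀ x ∈ S, 0 ≤ x ∧ ¬ AlgebraicIndependent ℚ (tup K x)) : S.card ≤ K.card := by
  classical
  by_contra hcard
  obtain ⟨n, hn⟩ : ∃ n, n = K.card := ⟨_, rfl⟩
  have hn1 : n + 1 ≤ S.card := by omega
  obtain ⟨S', hS'S, hS'c⟩ := Finset.exists_subset_card_eq hn1
  let x : Fin (n + 1) → ℚ := fun i => ((S'.equivFinOfCardEq hS'c).symm i : ℚ)
  have hxinj : Function.Injective x := fun i j h => (S'.equivFinOfCardEq hS'c).symm.injective (Subtype.ext h)
  have hxS : ∀ i, x i ∈ S := fun i => hS'S ((S'.equivFinOfCardEq hS'c).symm i).2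
  choose B hB1 hB2 using fun i => small_basis K (x i) (hS (x i) (hxS i)).2
  let T : Finset ℝ := insert (Real.exp 1) (Finset.univ.biUnion B)
  have hTc : T.card ≤ (n + 1) * (n - 1) + 1 := by
    refine (Finset.card_insert_le _ _).trans (Nat.add_le_add_right ?_ 1)
    refine (Finset.card_biUnion_le).trans ?_
    refine (Finset.sum_le_card_nsmul _ _ (n - 1) (fun i _ => by
      have := hB1 i
      omega)).trans ?_
    rw [Finset.card_univ, Fintype.card_fin, smul_eq_mul]
  have hmem : ∀ i, ∀ k ∈ K, Rt k (x i) ∈ clF (T : Set ℝ) := by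
    intro i k hk
    refine clF_mono ?_ (hB2 i k hk)
    intro z hz
    rcases hz with hz | hz
    · rw [hz]; exact Finset.mem_coe.2 (Finset.mem_insert_self _ _)
    · exact Finset.mem_coe.2 (Finset.mem_insert_of_mem (Finset.mem_biUnion.2 ⟨i, Finset.mem_univ _, hz⟩))
  have hAI := indep_multi K hK (fun i => nmZ (x i))
    (fun i j h => hxinj (nmZ_inj (hS _ (hxS i)).1 (hS _ (hxS j)).1 h))
  have h1 := card_le hAI (T := (T : Set ℝ)) (fun z => by
    cases z with
    | none => exact subset_clF _ (Finset.mem_coe.2 (Finset.mem_insert_self _ _))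
    | some p =>
      obtain ⟨k, j⟩ := p
      have h2 := (clF (T : Set ℝ)).sub_mem (hmem j.succ k k.2) (hmem 0 k k.2)
      rw [Rt_eq (hK k k.2) (hS _ (hxS _)).1, Rt_eq (hK k k.2) (hS _ (hxS _)).1] at h2
      have h3 : Pool.Agent.R352.E.zt k - off k (nmZ (x j.succ)) - (Pool.Agent.R352.E.zt k - off k (nmZ (x 0))) =
          off k (nmZ (x 0)) - off k (nmZ (x j.succ)) := by ring
      rw [h3] at h2
      exact h2)
  have h2 : (Fintype.card (Option (K × Fin n)) : ℕ∞) ≤ T.card := by
    refine h1.trans ((Matroid.eRk_le_encard _ _).trans ?_)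
    rw [encard_coe_eq_coe_finsetCard]
  have h3 : Fintype.card (Option (K × Fin n)) ≤ T.card := by exact_mod_cast h2
  rw [Fintype.card_option, Fintype.card_prod, Fintype.card_coe, Fintype.card_fin, ← hn] at h3
  have h4 : n * n + 1 ≤ (n + 1) * (n - 1) + 1 := h3.trans hTc
  have h5 : 1 ≤ n := by
    have := hB1 0
    omega
  obtain ⟨l, rfl⟩ : ∃ l, n = l + 1 := ⟨n - 1, by omega⟩
  simp only [Nat.add_sub_cancel] at h4
  nlinarith

end Pool.Agent.Helper927_jm
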